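import Pool.Agent.H220.K.Asm
import Pool.Agent.H100.K.VV
import Pool.Agent.H127.K.Prop
import Pool.Agent.H200.K.Esc
import Pool.Agent.H32.K.Smooth
import Pool.Agent.H400.K.Liou
import Pool.Agent.H407.K.Comp
import Pool.Agent.H549.K.Visc
import Pool.Agent.H597.K.Trunc
import Pool.Agent.H638.K.Lcont
import Pool.Agent.H653.K.Rad
import Pool.Agent.H670.K.Bar
import Pool.Agent.H729.K.EscA
import Pool.Agent.H767.K.Tail
import Pool.Agent.H784.K.Chain
import Pool.Agent.H922.K.Hol
import Pool.Agent.H935.K.NonPP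

set_option autoImplicit false

open Set Filter Topology Metric

/-!
# A strictly pseudoconvex domain in `ℂ³` with smooth boundary whose core is not pluripolar
-/

namespace Pool.Agent.Results.MP_0015b7_an.NotPluripolarCore

open Pool.Agent.H220.K

/-- There is a strictly pseudoconvex domain in `ℂ³` with smooth (nonempty) boundary whose core is
not pluripolar. -/
theorem result : ∃ Ω : Set (ℂ × ℂ × ℂ), IsOpen Ω ∧ IsConnected Ω ∧ (frontier Ω).Nonempty ∧
    StrictlyPseudoconvex Ω ∧ ¬ Pluripolar (core Ω) :=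
  assemble Pool.Agent.H767.K.s_tail Pool.Agent.H922.K.s_hol
    (Pool.Agent.H200.K.s_esc Pool.Agent.H729.K.s_escA) Pool.Agent.H597.K.s_trunc
    (Pool.Agent.H100.K.s_vv Pool.Agent.H32.K.s_smooth Pool.Agent.H653.K.s_rad)
    Pool.Agent.H784.K.s_chain Pool.Agent.H638.K.s_lcont Pool.Agent.H407.K.s_comp
    Pool.Agent.H400.K.s_liou
    (Pool.Agent.H935.K.s_nonpp Pool.Agent.H549.K.s_visc Pool.Agent.H670.K.s_bar
      Pool.Agent.H127.K.s_prop Pool.Agent.H784.K.s_chain)

end Pool.Agent.Results.MP_0015b7_an.NotPluripolarCore
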